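import Pool.Agent.Results.MP_9ae2f3_gt.GluedKnotExteriors
import Pool.Agent.TH744.Tree.Caps

set_option autoImplicit false

/-!
# Boundary elements which move all points in the same direction
-/

universe u v

namespace Pool.Agent.L7h76.MT

open Pool.Agent.R649.BT (SCap TameE)
open Pool.Agent.TH744.Tree (Dm DmS Cp CpS dualHom mono_aut)

/-- In all actions of `N` on complete linear orders the elements of `Q` move every point in the
same direction, and their fixed points are global fixed points. -/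
structure Dir (N : Type v) [Group N] (Q : Set N) : Prop where
  comm : ∀ y ∈ Q, ∀ z ∈ Q, Commute y z
  up : ∀ (X : Type u) [CompleteLinearOrder X] (ρ : N →* (X ≃o X)), ∀ y ∈ Q, ∀ z ∈ Q, ∀ p,
    p < ρ y p → p < ρ z p
  fix : ∀ (X : Type u) [CompleteLinearOrder X] (ρ : N →* (X ≃o X)), ∀ y ∈ Q, ∀ p,
    ρ y p = p → ∀ g, ρ g p = p

/-- Both elements are in `Q`, or both of their inverses. -/
def Both {G : Type v} [Group G] (Q : Set G) (y z : G) : Prop :=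
  (y ∈ Q ∧ z ∈ Q) ∨ (y⁻¹ ∈ Q ∧ z⁻¹ ∈ Q)

section
variable {N : Type v} [Group N] {Q : Set N}

theorem Dir.dn (h : Dir.{u} N Q) {X : Type u} [CompleteLinearOrder X] (ρ : N →* (X ≃o X))
    {y z : N} (hy : y ∈ Q) (hz : z ∈ Q) {p : X} (hp : ρ y p < p) : ρ z p < p :=
  h.up Xᵒᵈ (dualHom ρ) y hy z hz p hp

theorem lt_of_inv {G : Type v} [Group G] {X : Type u} [LinearOrder X] (ρ : G →* (X ≃o X)) {y : G}
    {p : X} : p < ρ y p ↔ ρ y⁻¹ p < p := by
  have : ρ y ((ρ y)⁻¹ p) = p := (ρ y).apply_symm_apply p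
  rw [← (ρ y).lt_iff_lt (x := ρ y⁻¹ p), map_inv, this]

theorem gt_of_inv {G : Type v} [Group G] {X : Type u} [LinearOrder X] (ρ : G →* (X ≃o X)) {y : G}
    {p : X} : ρ y p < p ↔ p < ρ y⁻¹ p := by
  have : ρ y ((ρ y)⁻¹ p) = p := (ρ y).apply_symm_apply p
  rw [← (ρ y).lt_iff_lt (y := ρ y⁻¹ p), map_inv, this]

theorem eq_of_inv {G : Type v} [Group G] {X : Type u} [LinearOrder X] (ρ : G →* (X ≃o X)) {y : G}
    {p : X} : ρ y p = p ↔ ρ y⁻¹ p = p := by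
  rw [map_inv]
  constructor
  · intro h
    exact (OrderIso.symm_apply_eq (ρ y)).mpr h.symm
  · intro h
    exact ((OrderIso.symm_apply_eq (ρ y)).mp h).symm

variable {G : Type*} [Group G] (f : N →* G) {X : Type u} [CompleteLinearOrder X]
  (ρ : G →* (X ≃o X)) {y z : G}

theorem Dir.both_comm (h : Dir.{u} N Q) (hb : Both (f '' Q) y z) : Commute y z := by
  rcases hb with ⟨⟨a, ha, ea⟩, ⟨b, hb, eb⟩⟩ | ⟨⟨a, ha, ea⟩, ⟨b, hb, eb⟩⟩
  · rw [← ea, ← eb]; exact (h.comm a ha b hb).map f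
  · have := (h.comm a ha b hb).map f
    rw [ea, eb] at this
    exact Commute.inv_inv_iff.mp this

theorem Dir.both_up (h : Dir.{u} N Q) (hb : Both (f '' Q) y z) {p : X} (hp : p < ρ y p) :
    p < ρ z p := by
  rcases hb with ⟨⟨a, ha, ea⟩, ⟨b, hb, eb⟩⟩ | ⟨⟨a, ha, ea⟩, ⟨b, hb, eb⟩⟩
  · rw [← ea] at hp
    rw [← eb]
    exact h.up X (ρ.comp f) a ha b hb p hp
  · rw [lt_of_inv, ← ea] at hp
    rw [lt_of_inv, ← eb]
    exact h.dn (ρ.comp f) ha hb hp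

theorem Dir.both_dn (h : Dir.{u} N Q) (hb : Both (f '' Q) y z) {p : X} (hp : ρ y p < p) :
    ρ z p < p := by
  rcases hb with ⟨⟨a, ha, ea⟩, ⟨b, hb, eb⟩⟩ | ⟨⟨a, ha, ea⟩, ⟨b, hb, eb⟩⟩
  · rw [← ea] at hp
    rw [← eb]
    exact h.dn (ρ.comp f) ha hb hp
  · rw [gt_of_inv, ← ea] at hp
    rw [gt_of_inv, ← eb]
    exact h.up X (ρ.comp f) a ha b hb p hp

theorem Dir.both_fix (h : Dir.{u} N Q) (hb : Both (f '' Q) y z) {p : X} (hp : ρ y p = p) (g : N) :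
    ρ (f g) p = p := by
  rcases hb with ⟨⟨a, ha, ea⟩, _⟩ | ⟨⟨a, ha, ea⟩, _⟩
  · rw [← ea] at hp
    exact h.fix X (ρ.comp f) a ha p hp g
  · rw [eq_of_inv, ← ea] at hp
    exact h.fix X (ρ.comp f) a ha p hp g

theorem Dir.both_fix' (h : Dir.{u} N Q) (hb : Both (f '' Q) y z) {p : X} (hp : ρ y p = p) :
    ρ z p = p := by
  have h1 := h.both_fix f ρ hb hp
  rcases hb with ⟨_, ⟨b, hb, eb⟩⟩ | ⟨_, ⟨b, hb, eb⟩⟩
  · rw [← eb]; exact h1 b
  · rw [eq_of_inv, ← eb]; exact h1 b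

theorem Dir.both_fix2 (h : Dir.{u} N Q) (hb : Both (f '' Q) y z) {p : X} (hp : ρ z p = p) (g : N) :
    ρ (f g) p = p := by
  refine h.both_fix (z := y) f ρ ?_ hp g
  rcases hb with ⟨h1, h2⟩ | ⟨h1, h2⟩
  · exact Or.inl ⟨h2, h1⟩
  · exact Or.inr ⟨h2, h1⟩

/-- The cap of a cusp of a block. -/
theorem Dir.scap (h : Dir.{u} N Q) {x e : G} (hb : Both (f '' Q) x e⁻¹) :
    SCap (ρ x) (ρ e) := by
  have hc : Commute x e := by
    have := h.both_comm f hb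
    exact Commute.inv_right_iff.mp this
  refine ⟨fun v => ?_, fun v hv => ?_, fun v hv => ?_, fun v hv => ?_⟩
  · rw [← RelIso.mul_apply, ← RelIso.mul_apply, ← map_mul, ← map_mul, hc.eq]
  · have := h.both_up f ρ hb hv
    rwa [← gt_of_inv] at this
  · have := h.both_dn f ρ hb hv
    rwa [← lt_of_inv] at this
  · have := h.both_fix' f ρ hb hv
    rwa [← eq_of_inv] at this

/-- The cap of a component of a chain link. -/
theorem Dir.cps (h : Dir.{u} N Q) {σ : Bool} {o l : G}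
    (hb : Both (f '' Q) o⁻¹ (o ^ 2 * if σ then l else l⁻¹)) :
    CpS X σ (ρ o) (ρ l) ∧ Cp X σ (ρ o) (ρ l) := by
  have eM : (if σ then ρ l else (ρ l)⁻¹) = ρ (if σ then l else l⁻¹) := by
    cases σ
    · simp
    · simp
  have hc := h.both_comm f hb
  unfold CpS Cp
  rw [eM]
  generalize (if σ then l else l⁻¹) = M at hb hc
  have e1 : ∀ v, ρ M v = (ρ o)⁻¹ ((ρ o)⁻¹ (ρ (o ^ 2 * M) v)) := by
    intro v
    rw [← map_inv, ← RelIso.mul_apply, ← RelIso.mul_apply, ← map_mul, ← map_mul]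
    congr 2
    group
  have h1 : ∀ v : X, v < (ρ o)⁻¹ v → (ρ o)⁻¹ ((ρ o)⁻¹ v) < ρ M v := by
    intro v hv
    rw [← map_inv] at hv
    have h2 := h.both_up f ρ hb hv
    rw [e1]
    exact ((ρ o)⁻¹).lt_iff_lt.mpr (((ρ o)⁻¹).lt_iff_lt.mpr h2)
  have h2 : ∀ v : X, (ρ o)⁻¹ v < v → ρ M v < (ρ o)⁻¹ ((ρ o)⁻¹ v) := by
    intro v hv
    rw [← map_inv] at hv
    have h2 := h.both_dn f ρ hb hv
    rw [e1]
    exact ((ρ o)⁻¹).lt_iff_lt.mpr (((ρ o)⁻¹).lt_iff_lt.mpr h2)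
  have h3 : ∀ v : X, (ρ o)⁻¹ v = v → ρ M v = v := by
    intro v hv
    have hv' := hv
    rw [← map_inv] at hv
    have h2 := h.both_fix' f ρ hb hv
    rw [e1, h2, hv', hv']
  refine ⟨⟨h1, h2⟩, ⟨fun v hv => ?_, fun v hv => ?_⟩⟩
  · rcases eq_or_lt_of_le hv with hv | hv
    · have hv' : (ρ o)⁻¹ v = v := hv.symm
      have h4 := h3 v hv'
      show (ρ o)⁻¹ ((ρ o)⁻¹ v) ≤ ρ M v
      rw [h4, hv', hv']
    · exact (h1 v hv).le
  · rcases eq_or_lt_of_le hv with hv | hv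
    · have hv' : (ρ o)⁻¹ v = v := hv
      have h4 := h3 v hv'
      show ρ M v ≤ (ρ o)⁻¹ ((ρ o)⁻¹ v)
      rw [h4, hv', hv']
    · exact (h2 v hv).le

end

end Pool.Agent.L7h76.MT
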